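import Pool.Agent.helper76.FF2.Spec

/-! Project FF2, row CSH. -/

set_option autoImplicit false

namespace Pool.Agent.FF2

open Polynomial

theorem CSH_sub4 {R : Type*} [CommRing R] (h2 : (2 : R) = 0) (w b : R) : (w - b) ^ 4 = w ^ 4 - b ^ 4 := by
  linear_combination (-2 * w ^ 3 * b + 3 * w ^ 2 * b ^ 2 - 2 * w * b ^ 3 + b ^ 4) * h2

/-- decomposition for one `w`. -/
theorem CSH_dec {F : Type*} [Field F] [CharP F 2] {A Et s B wb w : F[X]} {N d : ℕ}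
    (hs : s.Monic) (hA : A + wb ^ 4 = s * B) (hsN : s ∣ Et ^ N) (hcop : IsCoprime B Et)
    (hw : w.Monic) (hwd : w.natDegree = d) (hbig : A.natDegree < 4 * d)
    (hT : Et ^ (2 * N + 2) ∣ w - wb) :
    ∃ u : F[X], A + w ^ 4 = s * (B + s ^ 3 * Et ^ 6 * u) ∧ (A + w ^ 4).Monic ∧
      (B + s ^ 3 * Et ^ 6 * u).Monic ∧
      s.natDegree + (B + s ^ 3 * Et ^ 6 * u).natDegree = 4 * d ∧
      IsCoprime (B + s ^ 3 * Et ^ 6 * u) Et ∧ IsCoprime (B + s ^ 3 * Et ^ 6 * u) s := by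
  have h2 : (2 : F[X]) = 0 := by
    have : ((2 : ℕ) : F[X]) = 0 := CharP.cast_eq_zero F[X] 2
    exact_mod_cast this
  have hwm : (w ^ 4).Monic := hw.pow 4
  have hw4 : (w ^ 4).natDegree = 4 * d := by rw [hw.natDegree_pow, hwd]
  obtain ⟨v, hv⟩ := hT
  obtain ⟨e, he⟩ := hsN
  have hEt2 : Et ^ (2 * N + 2) = s * s * Et * Et * (e * e) := by
    rw [pow_add, two_mul, pow_add, he]
    ring
  have heq : A + w ^ 4 = s * (B + s ^ 3 * Et ^ 6 * (s ^ 4 * Et ^ 2 * e ^ 8 * v ^ 4)) := by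
    have h3 : w - wb = s * s * Et * Et * (e * e) * v := by rw [← hEt2]; exact hv
    have h4 := CSH_sub4 h2 w wb
    rw [h3] at h4
    linear_combination hA - h4
  have hm : (A + w ^ 4).Monic := by
    apply hwm.add_of_right
    apply degree_lt_degree
    rw [hw4]
    exact hbig
  have hd4 : (A + w ^ 4).natDegree = 4 * d := by
    rw [natDegree_add_eq_right_of_natDegree_lt]
    · exact hw4
    · rw [hw4]
      exact hbig
  have hG : (B + s ^ 3 * Et ^ 6 * (s ^ 4 * Et ^ 2 * e ^ 8 * v ^ 4)).Monic :=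
    hs.of_mul_monic_left (by rw [← heq]; exact hm)
  have hcE : IsCoprime (B + s ^ 3 * Et ^ 6 * (s ^ 4 * Et ^ 2 * e ^ 8 * v ^ 4)) Et := by
    have h1 := hcop.add_mul_left_left (s ^ 3 * Et ^ 5 * (s ^ 4 * Et ^ 2 * e ^ 8 * v ^ 4))
    have h5 : B + Et * (s ^ 3 * Et ^ 5 * (s ^ 4 * Et ^ 2 * e ^ 8 * v ^ 4)) =
        B + s ^ 3 * Et ^ 6 * (s ^ 4 * Et ^ 2 * e ^ 8 * v ^ 4) := by ring
    rwa [h5] at h1
  refine ⟨s ^ 4 * Et ^ 2 * e ^ 8 * v ^ 4, heq, hm, hG, ?_, hcE, ?_⟩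
  · have h6 := congrArg natDegree heq
    rw [hd4, hs.natDegree_mul hG] at h6
    exact h6.symm
  · exact IsCoprime.of_isCoprime_of_dvd_right (hcE.pow_right (n := N)) ⟨e, he⟩

theorem CSH_bt01 {F : Type*} [Field F] [Fintype F] [CharP F 2] (h1 : BT0_stmt (AlgebraicClosure F))
    (h2 : RTS_stmt F) {m : ℕ} (hm : Fintype.card F = 2 ^ m) (P w : F[X]) :
    bt m (∑ b ∈ rs P, 1 / (aeval b w) ^ 4) = 0 ∨ bt m (∑ b ∈ rs P, 1 / (aeval b w) ^ 4) = 1 := by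
  apply h1.2.2.2.1
  rw [← hm]
  apply h2.2.2.2.1 P (fun b => 1 / (aeval b w) ^ 4)
  intro x _
  have h3 := helper36.FF.aeval_pow_card (F := F) w x 1
  rw [pow_one] at h3
  show 1 / (aeval (x ^ Fintype.card F) w) ^ 4 = (1 / (aeval x w) ^ 4) ^ Fintype.card F
  rw [h3, div_pow, one_pow, ← pow_mul, ← pow_mul, mul_comm]

theorem CSH_par {K : Type*} [Field K] [CharP K 2] {a b : ℕ} {x y : K} (hx : x = 0 ∨ x = 1)
    (hy : y = 0 ∨ y = 1) (h : (a : K) + (b : K) = x + y) :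
    (x = y → (-1 : ℤ) ^ a = (-1) ^ b) ∧ (x ≠ y → (-1 : ℤ) ^ a = -(-1) ^ b) := by
  have hcast : ((a + b : ℕ) : K) = x + y := by push_cast; exact h
  have hiff := CharP.cast_eq_zero_iff K 2 (a + b)
  have hpow : ∀ n : ℕ, (-1 : ℤ) ^ n * (-1) ^ n = 1 := fun n => by
    rw [← mul_pow]
    norm_num
  constructor
  · intro hxy
    have h0 : x + y = 0 := by rw [hxy]; exact CharTwo.add_self_eq_zero y
    rw [h0] at hcast
    have hev : 2 ∣ a + b := hiff.1 hcast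
    have h3 : (-1 : ℤ) ^ (a + b) = 1 := (even_iff_two_dvd.2 hev).neg_one_pow
    rw [pow_add] at h3
    have := hpow b
    calc (-1 : ℤ) ^ a = (-1) ^ a * ((-1) ^ b * (-1) ^ b) := by rw [this, mul_one]
      _ = ((-1) ^ a * (-1) ^ b) * (-1) ^ b := by ring
      _ = (-1) ^ b := by rw [h3, one_mul]
  · intro hxy
    have h1 : x + y = 1 := by
      rcases hx with rfl | rfl <;> rcases hy with rfl | rfl
      · exact absurd rfl hxy
      · simp
      · simp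
      · exact absurd rfl hxy
    rw [h1] at hcast
    have hodd : ¬ 2 ∣ a + b := fun hd => by
      rw [hiff.2 hd] at hcast
      exact zero_ne_one hcast
    have h3 : (-1 : ℤ) ^ (a + b) = -1 := by
      have : Odd (a + b) := by
        rw [← Nat.not_even_iff_odd, even_iff_two_dvd]
        exact hodd
      exact this.neg_one_pow
    rw [pow_add] at h3
    have := hpow b
    calc (-1 : ℤ) ^ a = (-1) ^ a * ((-1) ^ b * (-1) ^ b) := by rw [this, mul_one]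
      _ = ((-1) ^ a * (-1) ^ b) * (-1) ^ b := by ring
      _ = -(-1) ^ b := by rw [h3]; ring

theorem CSH (F : Type*) [Field F] [Fintype F] [CharP F 2] (h1 : BT0_stmt (AlgebraicClosure F))
    (h2 : RTS_stmt F) (h3 : CMP_stmt F) : CSH_stmt F := by
  intro m hm A P E Et s B wb w₁ w₂ N d hP hi hE hEt hEE hs hA hsN hcop hder hP4 hPEt hhas
    hw₁ hw₂ hd₁ hd₂ hbig hT₁ hT₂ hPw₁ hPw₂
  obtain ⟨u₁, e₁, m₁, g₁, n₁, c₁, k₁⟩ := CSH_dec hs hA hsN hcop hw₁ hd₁ hbig hT₁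
  obtain ⟨u₂, e₂, m₂, g₂, n₂, c₂, k₂⟩ := CSH_dec hs hA hsN hcop hw₂ hd₂ hbig hT₂
  have hPE : IsCoprime P E := IsCoprime.of_isCoprime_of_dvd_right hPEt hEE
  have hPs : IsCoprime P s := IsCoprime.of_isCoprime_of_dvd_right (hPEt.pow_right (n := N)) hsN
  obtain ⟨z, hz⟩ := hEE
  have key := h3 m hm A P E s w₁ w₂ _ _ hP hi hE hs hder hPE hPs hP4 hhas e₁ e₂ g₁ g₂
    (by omega) (by omega) hPw₁ hPw₂
    (IsCoprime.of_isCoprime_of_dvd_right c₁ ⟨z, hz⟩) k₁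
    (IsCoprime.of_isCoprime_of_dvd_right c₂ ⟨z, hz⟩) k₂
    ⟨z ^ 6 * (u₁ - u₂), by rw [hz]; ring⟩
  rw [Finset.sum_add_distrib, h1.1] at key
  have hpar := CSH_par (CSH_bt01 h1 h2 hm P w₁) (CSH_bt01 h1 h2 hm P w₂) key
  have hl₁ : helper36.FF.lam (A + w₁ ^ 4) = helper36.FF.lam s *
      helper36.FF.lam (B + s ^ 3 * Et ^ 6 * u₁) := by
    rw [e₁]
    exact helper36.FF.lam_mul hs.ne_zero g₁.ne_zero
  have hl₂ : helper36.FF.lam (A + w₂ ^ 4) = helper36.FF.lam s *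
      helper36.FF.lam (B + s ^ 3 * Et ^ 6 * u₂) := by
    rw [e₂]
    exact helper36.FF.lam_mul hs.ne_zero g₂.ne_zero
  constructor
  · intro hxy
    have h5 := hpar.1 hxy
    rw [hl₁, hl₂]
    have h6 : helper36.FF.lam (B + s ^ 3 * Et ^ 6 * u₁) = helper36.FF.lam (B + s ^ 3 * Et ^ 6 * u₂) := h5
    rw [h6]
  · intro hxy
    have h5 := hpar.2 hxy
    rw [hl₁, hl₂]
    have h6 : helper36.FF.lam (B + s ^ 3 * Et ^ 6 * u₁) = -helper36.FF.lam (B + s ^ 3 * Et ^ 6 * u₂) := h5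
    rw [h6]
    ring

end Pool.Agent.FF2
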